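import Mathlib

/-!
# Shortest routes to simplicity by admissible swaps

At every step of a shortest route the edge to be removed can be prescribed: any edge of too large
multiplicity can be swapped first, together with an edge which is not incident to it.
-/

set_option autoImplicit false

namespace Pool.Agent.Results.MP_742338_co.Admissible

open Multiset

variable {V : Type} [DecidableEq V]

/-- The number of half-edges at `v`; a loop counts twice. -/
def deg (G : Multiset (Sym2 V)) (v : V) : ℕ := (G.bind Sym2.toMultiset).count v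

/-- `e` is not a loop and has multiplicity one in `G`. -/
def SimpleEdge (G : Multiset (Sym2 V)) (e : Sym2 V) : Prop := ¬ e.IsDiag ∧ G.count e = 1

/-- All edges are simple. -/
def Simple (G : Multiset (Sym2 V)) : Prop := ∀ e ∈ G, SimpleEdge G e

/-- `G'` arises from `G` by a double edge swap whose removed edges satisfy `P`. -/
def SwapWith (P : Sym2 V → Sym2 V → Prop) (G G' : Multiset (Sym2 V)) : Prop :=
  ∃ a b c d R, G = s(a, b) ::ₘ s(c, d) ::ₘ R ∧ G' = s(b, c) ::ₘ s(d, a) ::ₘ R ∧ P s(a, b) s(c, d)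

/-- `G'` arises from `G` by a double edge swap. -/
def Swap (G G' : Multiset (Sym2 V)) : Prop := SwapWith (fun _ _ => True) G G'

/-- The edges `e` and `f` are incident. -/
def Incident (e f : Sym2 V) : Prop := ∃ v, v ∈ e ∧ v ∈ f

/-- `G'` arises from `G` by an admissible double edge swap: the removed edges are not incident and
are not both simple. -/
def AdmissibleSwap (G G' : Multiset (Sym2 V)) : Prop :=
  SwapWith (fun e f => ¬ Incident e f ∧ ¬ (SimpleEdge G e ∧ SimpleEdge G f)) G G'

/-- `G'` arises from `G` by a double edge swap which removes the edge `φ G` and an edge not incident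
to it. -/
def SwapAt (φ : Multiset (Sym2 V) → Sym2 V) (G G' : Multiset (Sym2 V)) : Prop :=
  SwapWith (fun e f => e = φ G ∧ ¬ Incident e f) G G'

/-- `n` steps of `r` lead from the first multigraph to the second. -/
def Steps (r : Multiset (Sym2 V) → Multiset (Sym2 V) → Prop) :
    ℕ → Multiset (Sym2 V) → Multiset (Sym2 V) → Prop
  | 0, G, H => G = H
  | n + 1, G, H => ∃ G', r G G' ∧ Steps r n G' H

/-- `G` and `H` have the same degrees. -/
def SameDeg (G H : Multiset (Sym2 V)) : Prop := ∀ v, deg H v = deg G v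

/-- The exchange lemma of the library: an edge of too large multiplicity can be swapped first. -/
theorem first (e : Sym2 V) (H : Multiset (Sym2 V)) (n : ℕ) (G : Multiset (Sym2 V))
    (h : Steps Swap n G H) (c : H.count e < G.count e) :
    ∃ m G', n = m + 1 ∧ SwapWith (fun f _ => f = e) G G' ∧ Steps Swap m G' H := by
  induction n generalizing G with
  | zero => exact absurd (h ▸ c) (lt_irrefl _)
  | succ n ih =>
    obtain ⟨_, ⟨a, b, x, y, R, rfl, rfl, -⟩, h⟩ := h
    by_cases e1 : s(a, b) = e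
    · exact ⟨n, _, rfl, ⟨a, b, x, y, R, rfl, rfl, e1⟩, h⟩
    by_cases e2 : s(x, y) = e
    · exact ⟨n, _, rfl, ⟨x, y, a, b, R, cons_swap _ _ _, cons_swap _ _ _, e2⟩, h⟩
    rw [count_cons_of_ne (Ne.symm e1), count_cons_of_ne (Ne.symm e2)] at c
    obtain ⟨m, _, rfl, ⟨p, q, u, v, S, k, rfl, rfl⟩, h'⟩ :=
      ih _ h (c.trans_le (count_le_of_le _ ((le_cons_self _ _).trans (le_cons_self _ _))))
    obtain ⟨R, rfl⟩ := exists_cons_of_mem (count_pos.mp (c.trans_le' (Nat.zero_le _)))
    rw [cons_swap s(y, a), cons_swap s(b, x), cons_inj_right] at k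
    have key : ∀ a b x y u v p q : V, s(b, x) = s(u, v) → s(y, a) ::ₘ R = S →
        ∃ G', SwapWith (fun f _ => f = s(p, q)) (s(a, b) ::ₘ s(x, y) ::ₘ s(p, q) ::ₘ R) G' ∧
          Swap G' (s(q, u) ::ₘ s(v, p) ::ₘ S) := by
      rintro a b x y u v p q kk rfl
      rcases Sym2.eq_iff.mp kk with ⟨rfl, rfl⟩ | ⟨rfl, rfl⟩
      · refine ⟨_, ⟨p, q, b, a, s(x, y) ::ₘ R, ?_, rfl, rfl⟩, p, a, y, x, s(q, b) ::ₘ R, ?_, ?_, trivial⟩ <;>
          simp only [Sym2.eq_swap (a := b) (b := a), Sym2.eq_swap (a := a) (b := p),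
            Sym2.eq_swap (a := y) (b := x), Sym2.eq_swap (a := y) (b := a), ← singleton_add] <;> abel
      · refine ⟨_, ⟨q, p, b, a, s(x, y) ::ₘ R, ?_, rfl, Sym2.eq_swap⟩, q, a, y, x, s(p, b) ::ₘ R, ?_, ?_,
          trivial⟩ <;>
          simp only [Sym2.eq_swap (a := b) (b := a), Sym2.eq_swap (a := a) (b := q),
            Sym2.eq_swap (a := y) (b := x), Sym2.eq_swap (a := y) (b := a), Sym2.eq_swap (a := q) (b := p),
            Sym2.eq_swap (a := x) (b := q), Sym2.eq_swap (a := b) (b := p), ← singleton_add] <;> abel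
    have : s(u, v) ∈ s(b, x) ::ₘ s(y, a) ::ₘ R := k ▸ mem_cons_self _ _
    simp only [mem_cons] at this
    rcases this with t | t | t
    · obtain ⟨G', g1, g2⟩ := key a b x y u v p q t.symm (by rwa [t, cons_inj_right] at k)
      exact ⟨_, G', rfl, g1, _, g2, h'⟩
    · obtain ⟨G', g1, g2⟩ := key x y a b u v p q t.symm (by rwa [t, cons_swap, cons_inj_right] at k)
      exact ⟨_, G', rfl, cons_swap _ _ _ ▸ g1, _, g2, h'⟩
    · obtain ⟨R, rfl⟩ := exists_cons_of_mem t
      rw [cons_swap s(y, a), cons_swap s(b, x), cons_inj_right] at k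
      subst k
      refine ⟨_, _, rfl, ⟨p, q, u, v, s(a, b) ::ₘ s(x, y) ::ₘ R, ?_, rfl, rfl⟩, _,
        ⟨a, b, x, y, s(q, u) ::ₘ s(v, p) ::ₘ R, ?_, ?_, trivial⟩, h'⟩ <;>
        simp only [← singleton_add] <;> abel

/-- If the first swap of a shortest route from `G` to a loopless `H` removes `{p, q}` and `{q, r}`,
then `{p, q}` can also be removed first together with an edge not incident to it. -/
theorem repair (H : Multiset (Sym2 V)) (hH : ∀ e ∈ H, ¬ e.IsDiag) (n : ℕ) (p q r : V)
    (R : Multiset (Sym2 V))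
    (h : Steps Swap n (s(q, q) ::ₘ s(p, r) ::ₘ R) H)
    (hmin : ∀ m, Steps Swap m (s(p, q) ::ₘ s(q, r) ::ₘ R) H → n + 1 ≤ m) :
    ∃ G', SwapWith (fun e f => e = s(p, q) ∧ ¬ Incident e f) (s(p, q) ::ₘ s(q, r) ::ₘ R) G' ∧
      Steps Swap n G' H := by
  have hc : H.count s(q, q) < (s(q, q) ::ₘ s(p, r) ::ₘ R).count s(q, q) := by
    have h1 : H.count s(q, q) = 0 := count_eq_zero.2 fun hq => hH _ hq (Sym2.mk_isDiag_iff.2 rfl)
    rw [h1, count_cons_self]
    omega
  obtain ⟨m, _, rfl, ⟨x1, x2, x, y, S, k, rfl, hx⟩, h'⟩ := first _ H n _ h hc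
  obtain ⟨e1, e2⟩ : x1 = q ∧ x2 = q := by
    rcases Sym2.eq_iff.mp hx with h1 | h1
    · exact h1
    · exact h1
  subst e1
  subst e2
  rw [cons_inj_right] at k
  -- `k : s(p, r) ::ₘ R = s(x, y) ::ₘ S`
  have hmem : s(x, y) ∈ s(p, r) ::ₘ R := k ▸ mem_cons_self _ _
  rw [mem_cons] at hmem
  rcases hmem with t | t
  · -- the second swap undoes the first one
    exfalso
    rw [t, cons_inj_right] at k
    subst k
    have h2 : s(x2, x) ::ₘ s(y, x2) ::ₘ R = s(p, x2) ::ₘ s(x2, r) ::ₘ R := by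
      rcases Sym2.eq_iff.mp t with ⟨rfl, rfl⟩ | ⟨rfl, rfl⟩
      · rw [Sym2.eq_swap (a := x2) (b := x), Sym2.eq_swap (a := y) (b := x2)]
      · rw [Sym2.eq_swap (a := y) (b := x2), cons_swap, Sym2.eq_swap (a := x2) (b := y)]
    rw [h2] at h'
    have := hmin m h'
    omega
  · obtain ⟨T, rfl⟩ := exists_cons_of_mem t
    rw [cons_swap, cons_inj_right] at k
    subst k
    -- now `S = s(p, r) ::ₘ T`
    by_cases hq : x2 ∈ s(x, y)
    · exfalso
      have h2 : s(x2, x) ::ₘ s(y, x2) ::ₘ s(p, r) ::ₘ T = s(x2, x2) ::ₘ s(p, r) ::ₘ s(x, y) ::ₘ T := by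
        rcases Sym2.mem_iff.1 hq with rfl | rfl
        · rw [Sym2.eq_swap (a := y) (b := x2), cons_swap s(p, r)]
        · rw [Sym2.eq_swap (a := x2) (b := x), cons_swap s(x, x2), cons_swap s(p, r)]
      rw [h2] at h'
      have := hmin (m + 1) ⟨_, ⟨p, x2, x2, r, s(x, y) ::ₘ T, rfl, rfl, trivial⟩, by
        rw [Sym2.eq_swap (a := r) (b := p)]
        exact h'⟩
      omega
    · by_cases hp : p ∈ s(x, y)
      · exfalso
        have h2 : Swap (s(p, x2) ::ₘ s(x2, r) ::ₘ s(x, y) ::ₘ T)
            (s(x2, x) ::ₘ s(y, x2) ::ₘ s(p, r) ::ₘ T) := by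
          rcases Sym2.mem_iff.1 hp with rfl | rfl
          · -- x = p
            refine ⟨y, p, r, x2, s(p, x2) ::ₘ T, ?_, ?_, trivial⟩
            · rw [Sym2.eq_swap (a := y) (b := p), Sym2.eq_swap (a := r) (b := x2)]
              simp only [← singleton_add]
              abel
            · rw [Sym2.eq_swap (a := x2) (b := p), Sym2.eq_swap (a := y) (b := x2)]
              simp only [← singleton_add]
              abel
          · -- y = p
            refine ⟨x, p, r, x2, s(p, x2) ::ₘ T, ?_, ?_, trivial⟩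
            · rw [Sym2.eq_swap (a := r) (b := x2)]
              simp only [← singleton_add]
              abel
            · simp only [← singleton_add]
              abel
        have := hmin (m + 1) ⟨_, h2, h'⟩
        omega
      · refine ⟨_, ⟨p, x2, x, y, s(x2, r) ::ₘ T, ?_, rfl, rfl, ?_⟩, _,
          ⟨y, p, r, x2, s(x2, x) ::ₘ T, ?_, ?_, trivial⟩, h'⟩
        · simp only [← singleton_add]
          abel
        · rintro ⟨v, hv, hv'⟩
          rcases Sym2.mem_iff.1 hv with rfl | rfl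
          · exact hp hv'
          · exact hq hv'
        · rw [Sym2.eq_swap (a := r) (b := x2)]
          simp only [← singleton_add]
          abel
        · rw [Sym2.eq_swap (a := y) (b := x2)]
          simp only [← singleton_add]
          abel

/-- On a shortest route to a loopless multigraph any edge of too large multiplicity can be swapped
first, together with an edge not incident to it. -/
theorem first_adm (H : Multiset (Sym2 V)) (hH : ∀ e ∈ H, ¬ e.IsDiag) (n : ℕ)
    (G : Multiset (Sym2 V)) (e : Sym2 V) (h : Steps Swap n G H)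
    (hmin : ∀ m, Steps Swap m G H → n ≤ m) (c : H.count e < G.count e) :
    ∃ m G', n = m + 1 ∧ SwapWith (fun f g => f = e ∧ ¬ Incident f g) G G' ∧ Steps Swap m G' H := by
  obtain ⟨m, _, rfl, ⟨a, b, x, y, R, rfl, rfl, rfl⟩, h'⟩ := first e H n G h c
  refine ⟨m, ?_⟩
  by_cases hi : Incident s(a, b) s(x, y)
  · obtain ⟨v, hv, hv'⟩ := hi
    rcases Sym2.mem_iff.1 hv with rfl | rfl <;> rcases Sym2.mem_iff.1 hv' with rfl | rfl
    · -- a = x : trivial swap
      exfalso
      have h2 : s(b, v) ::ₘ s(y, v) ::ₘ R = s(v, b) ::ₘ s(v, y) ::ₘ R := by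
        rw [Sym2.eq_swap (a := b) (b := v), Sym2.eq_swap (a := y) (b := v)]
      rw [h2] at h'
      have := hmin m h'
      omega
    · -- a = y : loop at a
      have h2 : s(b, x) ::ₘ s(v, v) ::ₘ R = s(v, v) ::ₘ s(b, x) ::ₘ R := cons_swap _ _ _
      rw [h2] at h'
      have h3 : s(v, b) ::ₘ s(x, v) ::ₘ R = s(b, v) ::ₘ s(v, x) ::ₘ R := by
        rw [Sym2.eq_swap (a := v) (b := b), Sym2.eq_swap (a := x) (b := v)]
      rw [h3] at hmin ⊢
      obtain ⟨G', g1, g2⟩ := repair H hH m b v x R h' hmin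
      rw [Sym2.eq_swap (a := b) (b := v)] at g1
      rw [Sym2.eq_swap (a := b) (b := v)]
      exact ⟨G', rfl, g1, g2⟩
    · -- b = x : loop at b
      have h2 : s(v, v) ::ₘ s(y, a) ::ₘ R = s(v, v) ::ₘ s(a, y) ::ₘ R := by
        rw [Sym2.eq_swap (a := y) (b := a)]
      rw [h2] at h'
      obtain ⟨G', g1, g2⟩ := repair H hH m a v y R h' hmin
      exact ⟨G', rfl, g1, g2⟩
    · -- b = y : trivial swap
      exfalso
      have h2 : s(v, x) ::ₘ s(v, a) ::ₘ R = s(a, v) ::ₘ s(x, v) ::ₘ R := by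
        rw [Sym2.eq_swap (a := v) (b := x), Sym2.eq_swap (a := v) (b := a), cons_swap]
      rw [h2] at h'
      have := hmin m h'
      omega
  · exact ⟨_, rfl, ⟨a, b, x, y, R, rfl, rfl, rfl, hi⟩, h'⟩

theorem good (φ : Multiset (Sym2 V) → Sym2 V) (hφ : ∀ K, ¬ Simple K → φ K ∈ K ∧ ¬ SimpleEdge K (φ K))
    (H : Multiset (Sym2 V)) (hH : Simple H) (n : ℕ) (G : Multiset (Sym2 V))
    (h : Steps Swap n G H) (m : ∀ m H', Simple H' → Steps Swap m G H' → n ≤ m) :
    Steps (fun K K' => ¬ Simple K ∧ SwapAt φ K K') n G H := by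
  induction n generalizing G with
  | zero => exact h
  | succ n ih =>
    have hG : ¬ Simple G := fun k => absurd (m 0 G k rfl) (by omega)
    obtain ⟨he, s⟩ := hφ G hG
    obtain ⟨k, G', hk, hsw, h3⟩ := first_adm H (fun e he => (hH e he).1) (n + 1) G (φ G) h
      (fun k hk => m k H hH hk) (by
        have := count_pos.mpr he
        by_cases k : φ G ∈ H
        · have := hH _ k
          simp only [SimpleEdge] at s this
          have : count (φ G) G ≠ 1 := fun q => s ⟨this.1, q⟩
          omega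
        · rwa [count_eq_zero.mpr k])
    obtain rfl : k = n := by omega
    refine ⟨G', ⟨hG, hsw⟩, ih G' h3 fun j H' s' t => ?_⟩
    obtain ⟨a, b, c, d, R, h1, h2, -⟩ := hsw
    have := m (j + 1) H' s' ⟨G', ⟨a, b, c, d, R, h1, h2, trivial⟩, t⟩
    omega

theorem good2 (H : Multiset (Sym2 V)) (hH : ∀ e ∈ H, ¬ e.IsDiag)
    (φ : Multiset (Sym2 V) → Sym2 V) (n : ℕ) (G : Multiset (Sym2 V)) (hG : SameDeg G H)
    (hφ : ∀ K, SameDeg K H → K ≠ H → H.count (φ K) < K.count (φ K))
    (h : Steps Swap n G H) (m : ∀ m, Steps Swap m G H → n ≤ m) :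
    Steps (SwapAt φ) n G H := by
  induction n generalizing G with
  | zero => exact h
  | succ n ih =>
    have hne : G ≠ H := fun k => absurd (m 0 k) (by omega)
    obtain ⟨k, G', hk, hsw, h3⟩ := first_adm H hH (n + 1) G (φ G) h m (hφ G hG hne)
    obtain rfl : k = n := by omega
    refine ⟨G', hsw, ih G' ?_ h3 fun j t => ?_⟩
    · obtain ⟨a, b, c, d, R, rfl, rfl, -⟩ := hsw
      intro v
      rw [hG v]
      unfold deg
      have tm : ∀ a b : V, s(a, b).toMultiset = {a} + {b} := fun a b => rfl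
      simp only [cons_bind, tm, count_add]
      omega
    · obtain ⟨a, b, c, d, R, h1, h2, -⟩ := hsw
      have := m (j + 1) ⟨G', ⟨a, b, c, d, R, h1, h2, trivial⟩, t⟩
      omega

omit [DecidableEq V] in
theorem cons_steps (e : Sym2 V) (n : ℕ) (G H : Multiset (Sym2 V)) (h : Steps Swap n G H) :
    Steps Swap n (e ::ₘ G) (e ::ₘ H) := by
  induction n generalizing G with
  | zero => exact congrArg _ h
  | succ n ih =>
    obtain ⟨_, ⟨a, b, c, d, R, rfl, rfl, -⟩, h⟩ := h
    refine ⟨_, ⟨a, b, c, d, e ::ₘ R, ?_, ?_, trivial⟩, ih _ h⟩ <;> simp only [← singleton_add] <;> abel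

theorem conn (H : Multiset (Sym2 V)) (hH : ∀ e ∈ H, ¬ e.IsDiag) (G : Multiset (Sym2 V))
    (h : H.bind Sym2.toMultiset = G.bind Sym2.toMultiset) : ∃ n, Steps Swap n G H := by
  have tm : ∀ a b : V, s(a, b).toMultiset = {a} + {b} := fun a b => rfl
  induction H using Multiset.induction_on generalizing G with
  | empty =>
    refine ⟨0, eq_zero_of_forall_notMem fun e he => ?_⟩
    induction e with | _ a b
    have : a ∈ G.bind Sym2.toMultiset := mem_bind.mpr ⟨_, he, by simp⟩
    simp [← h] at this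
  | cons e H ih =>
    induction e with | _ a b
    have st : ∀ R, (s(a, b) ::ₘ H).bind Sym2.toMultiset = (s(a, b) ::ₘ R).bind Sym2.toMultiset →
        ∃ n, Steps Swap n (s(a, b) ::ₘ R) (s(a, b) ::ₘ H) := fun R k => by
      rw [cons_bind, cons_bind, add_right_inj] at k
      exact (ih (fun e he => hH e (mem_cons_of_mem he)) R k).imp fun n => cons_steps _ n _ _
    by_cases k : s(a, b) ∈ G
    · obtain ⟨R, rfl⟩ := exists_cons_of_mem k
      exact st R h
    have ab : a ≠ b := fun q => hH _ (mem_cons_self _ _) (Sym2.mk_isDiag_iff.mpr q)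
    obtain ⟨f, hf, ha⟩ := mem_bind.mp (h ▸ by simp : a ∈ G.bind Sym2.toMultiset)
    obtain ⟨g, hg, hb⟩ := mem_bind.mp (h ▸ by simp : b ∈ G.bind Sym2.toMultiset)
    rw [Sym2.mem_toMultiset] at ha hb
    have fg : g ≠ f := fun q => k ((Sym2.mem_and_mem_iff ab).mp ⟨ha, q ▸ hb⟩ ▸ hf)
    obtain ⟨x, rfl⟩ := Sym2.mem_iff_exists.mp ha
    obtain ⟨y, rfl⟩ := Sym2.mem_iff_exists.mp hb
    obtain ⟨R, rfl⟩ := exists_cons_of_mem hf
    obtain ⟨R, rfl⟩ := exists_cons_of_mem ((mem_cons.mp hg).resolve_left fg)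
    obtain ⟨n, hn⟩ := st (s(y, x) ::ₘ R) (by
      rw [h]; simp only [cons_bind, tm]; abel)
    exact ⟨n + 1, _, ⟨x, a, b, y, R, by rw [Sym2.eq_swap], rfl, trivial⟩, hn⟩

/-- a step at a non-simple edge and a non-incident edge is admissible -/
theorem adm_of_swapAt (φ : Multiset (Sym2 V) → Sym2 V)
    (hφ : ∀ K, ¬ Simple K → φ K ∈ K ∧ ¬ SimpleEdge K (φ K)) (n : ℕ) (G H : Multiset (Sym2 V))
    (h : Steps (fun K K' => ¬ Simple K ∧ SwapAt φ K K') n G H) :
    Steps AdmissibleSwap n G H := by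
  induction n generalizing G with
  | zero => exact h
  | succ n ih =>
    obtain ⟨G', ⟨hG, a, b, c, d, R, h1, h2, h3, h4⟩, h⟩ := h
    exact ⟨G', ⟨a, b, c, d, R, h1, h2, h4, fun k => (hφ G hG).2 (h3 ▸ k.1)⟩, ih G' h⟩

/-- **Shortest routes to simplicity by admissible swaps.** Let `G` be a loopy multigraph.
(1) If the degree sequence of `G` is graphical, there is a shortest route to simplicity from `G` all
of whose swaps are admissible (the removed edges are not incident and not both simple).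
(2) Moreover the non-simple edge removed in each step can be prescribed: for every rule `φ` which
chooses a non-simple edge of every non-simple multigraph there is a shortest route to simplicity
each of whose swaps, from `K` to `K'`, removes `φ K` and an edge not incident to `φ K`.
(3) More generally let `H` be any loopless multigraph with the degrees of `G`, and let `φ` be a rule
which chooses from every multigraph `K ≠ H` with these degrees an edge whose multiplicity in `K` is
larger than in `H`. Then some shortest sequence of swaps from `G` to `H` consists of swaps which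
remove `φ K` and an edge not incident to it. -/
theorem result (V : Type) [DecidableEq V] (G : Multiset (Sym2 V)) :
    ((∃ H : Multiset (Sym2 V), Simple H ∧ SameDeg G H) →
      (∃ n H, Simple H ∧ Steps AdmissibleSwap n G H ∧
        ∀ m H', Simple H' → Steps Swap m G H' → n ≤ m) ∧
      ∀ φ : Multiset (Sym2 V) → Sym2 V, (∀ K, ¬ Simple K → φ K ∈ K ∧ ¬ SimpleEdge K (φ K)) →
        ∃ n H, Simple H ∧ Steps (fun K K' => ¬ Simple K ∧ SwapAt φ K K') n G H ∧
          ∀ m H', Simple H' → Steps Swap m G H' → n ≤ m) ∧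
    ∀ H : Multiset (Sym2 V), (∀ e ∈ H, ¬ e.IsDiag) → SameDeg G H →
      ∀ φ : Multiset (Sym2 V) → Sym2 V,
        (∀ K, SameDeg K H → K ≠ H → H.count (φ K) < K.count (φ K)) →
        ∃ n, Steps (SwapAt φ) n G H ∧ ∀ m, Steps Swap m G H → n ≤ m := by
  classical
  constructor
  · rintro ⟨H, h1, h2⟩
    have e : ∃ n, ∃ H, Simple H ∧ Steps Swap n G H :=
      (conn H (fun e he => (h1 e he).1) G (ext.mpr h2)).imp fun n hn => ⟨H, h1, hn⟩
    obtain ⟨K, k1, k2⟩ := Nat.find_spec e
    have m : ∀ m H', Simple H' → Steps Swap m G H' → Nat.find e ≤ m := fun m H' a b =>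
      Nat.find_min' e ⟨H', a, b⟩
    refine ⟨?_, fun φ hφ => ⟨_, K, k1, good φ hφ K k1 _ G k2 m, m⟩⟩
    by_cases hG : Simple G
    · exact ⟨0, G, hG, rfl, fun _ _ _ _ => Nat.zero_le _⟩
    unfold Simple at hG
    push Not at hG
    obtain ⟨e0, -, -⟩ := hG
    have hex : ∀ K : Multiset (Sym2 V), ∃ e, ¬ Simple K → e ∈ K ∧ ¬ SimpleEdge K e := by
      intro K
      by_cases hK : Simple K
      · exact ⟨e0, fun h => absurd hK h⟩
      · unfold Simple at hK
        push Not at hK
        obtain ⟨e, he, hs⟩ := hK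
        exact ⟨e, fun _ => ⟨he, hs⟩⟩
    choose φ hφ using hex
    exact ⟨_, K, k1, adm_of_swapAt φ hφ _ G K (good φ hφ K k1 _ G k2 m), m⟩
  · intro H hH hG φ hφ
    have e : ∃ n, Steps Swap n G H := conn H hH G (ext.mpr hG)
    have m : ∀ m, Steps Swap m G H → Nat.find e ≤ m := fun m a => Nat.find_min' e a
    exact ⟨_, good2 H hH φ _ G hG hφ (Nat.find_spec e) m, m⟩

end Pool.Agent.Results.MP_742338_co.Admissible
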